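import Mathlib
import Pool.Agent.X50.TF.Def
import Pool.Agent.X50.TF.Main

/-!
# A 3-connected 29-regular graph whose 26-factors all miss a triangle

There is a 3-connected 29-regular loopless multigraph on 46 vertices (667 edges) which has
26-factors, and a triangle in it that is edge-disjoint from every 26-factor. Since
`1/2 ≤ 26/29 ≤ 1`, the assertion of the question fails both for `κ = 2` and for `κ = 3`.
-/

namespace Pool.Agent.Results.MP_f3efb8_co.ForcedTriangle

open Pool.Agent.X50.TF

theorem result : (∃ G : MGraph (Fin 46) (Fin 667), G.KConn 3 ∧ G.IsFactor 29 Finset.univ ∧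
      (∃ F, G.IsFactor 26 F) ∧ ∃ C, G.IsCycle C ∧ C.card = 3 ∧
        ∀ F, G.IsFactor 26 F → Disjoint F C) ∧
    ¬ Claim 2 ∧ ¬ Claim 3 :=
  ⟨⟨G, main.1, main.2.1, main.2.2.1, T, main.2.2.2.1, main.2.2.2.2.1, main.2.2.2.2.2⟩,
    not_claim 2 le_rfl (by norm_num), not_claim 3 (by norm_num) le_rfl⟩

end Pool.Agent.Results.MP_f3efb8_co.ForcedTriangle
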